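import Pool.Agent.Helper56.RZ.GoalsD
import Pool.Agent.Helper55.RZ.J1

/-!
# Project RZ3 (MP_f32c9c_an), packet JM
-/

set_option autoImplicit false

open Set Filter Topology MeasureTheory

namespace Pool.Agent.Helper24.RZ

open Pool.Agent.Helper56.RZ

variable {K u : ℕ}

/-- every linear map from `ℝ^u` is, up to an isometry of its range, an endomorphism of `ℝ^u` -/
theorem exists_sq (Z : E u →L[ℝ] E K) :
    ∃ L : End u, ∀ v w, inner ℝ (L v) (L w) = inner ℝ (Z v) (Z w) := by
  classical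
  set R := LinearMap.range (Z : E u →ₗ[ℝ] E K) with hR
  have hk : Module.finrank ℝ R ≤ u := by
    have h1 := LinearMap.finrank_range_le (Z : E u →ₗ[ℝ] E K)
    simpa using h1
  set b := stdOrthonormalBasis ℝ R with hb
  set f : Fin (Module.finrank ℝ R) → E u :=
    (EuclideanSpace.basisFun (Fin u) ℝ) ∘ Fin.castLE hk with hf
  have hfo : Orthonormal ℝ f :=
    (EuclideanSpace.basisFun (Fin u) ℝ).orthonormal.comp _ (Fin.castLE_injective hk)
  let Z' : E u →ₗ[ℝ] R := LinearMap.rangeRestrict (Z : E u →ₗ[ℝ] E K)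
  let L0 : E u →ₗ[ℝ] E u :=
    { toFun := fun v => ∑ i, inner ℝ (b i) (Z' v) • f i
      map_add' := fun v w => by
        simp only [map_add, inner_add_right, add_smul, Finset.sum_add_distrib]
      map_smul' := fun c v => by
        rw [map_smul, Finset.smul_sum]
        refine Finset.sum_congr rfl fun i _ => ?_
        have h5 : inner ℝ (b i) (c • Z' v) = c * inner ℝ (b i) (Z' v) :=
          real_inner_smul_right (F := R) (b i) (Z' v) c
        rw [h5, smul_smul]
        rfl }
  refine ⟨LinearMap.toContinuousLinearMap L0, fun v w => ?_⟩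
  change inner ℝ (∑ i, inner ℝ (b i) (Z' v) • f i) (∑ i, inner ℝ (b i) (Z' w) • f i) = _
  rw [hfo.inner_sum]
  have h1 := b.sum_inner_mul_inner (Z' v) (Z' w)
  have h2 : inner ℝ (Z' v) (Z' w) = inner ℝ (Z v) (Z w) := rfl
  rw [← h2, ← h1]
  refine Finset.sum_congr rfl fun i _ => ?_
  simp only [conj_trivial]
  rw [real_inner_comm]

theorem gv_congr {K' : ℕ} (Z : E u →L[ℝ] E K) (L : E u →L[ℝ] E K')
    (h : ∀ v w, inner ℝ (L v) (L w) = inner ℝ (Z v) (Z w)) : gv L = gv Z := by
  have h1 : ((ContinuousLinearMap.adjoint L) ∘L L : End u) =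
      ((ContinuousLinearMap.adjoint Z) ∘L Z : End u) := by
    ext1 v
    refine ext_inner_right ℝ fun w => ?_
    change inner ℝ (ContinuousLinearMap.adjoint L (L v)) w =
      inner ℝ (ContinuousLinearMap.adjoint Z (Z v)) w
    rw [ContinuousLinearMap.adjoint_inner_left, ContinuousLinearMap.adjoint_inner_left, h]
  unfold gv
  rw [h1]

theorem gv_sq (W : End u) : gv W = |W.det| := by
  have h1 : LinearMap.det (((ContinuousLinearMap.adjoint W) ∘L W : End u) : E u →ₗ[ℝ] E u) =
      W.det ^ 2 := by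
    have h2 := Pool.Agent.Helper55.RZ.dt_mul (ContinuousLinearMap.adjoint W) W
    rw [Pool.Agent.Helper55.RZ.dt_adjoint] at h2
    rw [pow_two]
    exact h2
  unfold gv
  rw [h1, Real.sqrt_sq_eq_abs]

/-- an operator of norm at most `c` has determinant at most `c ^ u` -/
theorem abs_det_le (T : End u) {c : ℝ} (hc : 0 ≤ c) (h : ∀ v, ‖T v‖ ≤ c * ‖v‖) :
    |T.det| ≤ c ^ u := by
  have h1 := Measure.addHaar_image_continuousLinearMap (volume : Measure (E u)) T
    (Metric.closedBall 0 1)
  have h2 : T '' Metric.closedBall 0 1 ⊆ Metric.closedBall 0 c := by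
    rintro _ ⟨v, hv, rfl⟩
    rw [mem_closedBall_zero_iff] at hv ⊢
    calc ‖T v‖ ≤ c * ‖v‖ := h v
      _ ≤ c * 1 := by gcongr
      _ = c := mul_one c
  have h3 : volume (T '' Metric.closedBall 0 1) ≤ volume (Metric.closedBall (0 : E u) c) :=
    measure_mono h2
  rw [h1, Measure.addHaar_closedBall' _ _ hc, finrank_euclideanSpace_fin] at h3
  have hpos : volume (Metric.closedBall (0 : E u) 1) ≠ 0 :=
    (Metric.measure_closedBall_pos volume _ one_pos).ne'
  have hfin : volume (Metric.closedBall (0 : E u) 1) ≠ ⊤ :=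
    measure_closedBall_lt_top.ne
  have h4 : ENNReal.ofReal |T.det| ≤ ENNReal.ofReal (c ^ u) :=
    (ENNReal.mul_le_mul_iff_left hpos hfin).1 h3
  exact (ENNReal.ofReal_le_ofReal_iff (by positivity)).1 h4

theorem norm_of_inner {K' : ℕ} {Z : E u →L[ℝ] E K} {L : E u →L[ℝ] E K'}
    (h : ∀ v w, inner ℝ (L v) (L w) = inner ℝ (Z v) (Z w)) (v : E u) : ‖L v‖ = ‖Z v‖ := by
  have h1 := h v v
  rw [real_inner_self_eq_norm_sq, real_inner_self_eq_norm_sq] at h1
  exact (sq_eq_sq₀ (norm_nonneg _) (norm_nonneg _)).1 h1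

theorem jm : StmtJM := by
  intro K K' u Y Z c hc
  refine ⟨fun h => ?_, gv_sq⟩
  obtain ⟨N, hN⟩ := exists_sq Y
  obtain ⟨L, hL⟩ := exists_sq Z
  rw [← gv_congr Y N hN, ← gv_congr Z L hL, gv_sq, gv_sq]
  have hNL : ∀ v, ‖N v‖ ≤ c * ‖L v‖ := fun v => by
    rw [norm_of_inner hN, norm_of_inner hL]; exact h v
  by_cases hd : L.det = 0
  · have hd' : LinearMap.det (L : E u →ₗ[ℝ] E u) = 0 := hd
    have h1 : ∃ v ≠ 0, L v = 0 := by
      by_contra hcon
      push Not at hcon
      have hinj : Function.Injective (L : E u →ₗ[ℝ] E u) := by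
        rw [injective_iff_map_eq_zero]
        intro v hv
        by_contra hne
        exact hcon v hne hv
      have hu : IsUnit (L : E u →ₗ[ℝ] E u) :=
        (LinearMap.isUnit_iff_ker_eq_bot _).2 (LinearMap.ker_eq_bot.2 hinj)
      have := (LinearMap.isUnit_iff_isUnit_det _).1 hu
      rw [hd'] at this
      exact not_isUnit_zero this
    obtain ⟨v, hv, hLv⟩ := h1
    have hNv : N v = 0 := by
      have := hNL v
      rw [hLv, norm_zero, mul_zero] at this
      exact norm_le_zero_iff.1 this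
    have hNd : N.det = 0 := by
      change LinearMap.det (N : E u →ₗ[ℝ] E u) = 0
      by_contra hne
      have hu : IsUnit (N : E u →ₗ[ℝ] E u) :=
        (LinearMap.isUnit_iff_isUnit_det _).2 (isUnit_iff_ne_zero.2 hne)
      have hk := (LinearMap.isUnit_iff_ker_eq_bot _).1 hu
      have : v ∈ LinearMap.ker (N : E u →ₗ[ℝ] E u) := hNv
      rw [hk] at this
      exact hv this
    rw [hNd, hd, abs_zero, mul_zero]
  · have hu : IsUnit (L : E u →ₗ[ℝ] E u) :=
      (LinearMap.isUnit_iff_isUnit_det _).2 (isUnit_iff_ne_zero.2 hd)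
    have hinj : Function.Injective (L : E u →ₗ[ℝ] E u) :=
      LinearMap.ker_eq_bot.1 ((LinearMap.isUnit_iff_ker_eq_bot _).1 hu)
    let e : E u ≃ₗ[ℝ] E u := LinearEquiv.ofInjectiveEndo _ hinj
    let ec : E u ≃L[ℝ] E u := e.toContinuousLinearEquiv
    let T : End u := N ∘L (ec.symm : E u →L[ℝ] E u)
    have hec : ∀ v, ec v = L v := fun v => rfl
    have hT : ∀ v, ‖T v‖ ≤ c * ‖v‖ := by
      intro v
      have h1 := hNL (ec.symm v)
      rw [← hec, ContinuousLinearEquiv.apply_symm_apply] at h1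
      exact h1
    have h2 := abs_det_le T hc hT
    have h3 : T ∘L L = N := by
      ext1 v
      change N (ec.symm (L v)) = N v
      rw [← hec, ContinuousLinearEquiv.symm_apply_apply]
    have h4 : N.det = T.det * L.det := by
      rw [← h3]
      exact Pool.Agent.Helper55.RZ.dt_mul T L
    rw [h4, abs_mul]
    exact mul_le_mul_of_nonneg_right h2 (abs_nonneg _)

end Pool.Agent.Helper24.RZ
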